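import Pool.Agent.Helper97.Fuchs.Base

/-!
# Negative moments of the random walk and their stability
-/

namespace Pool.Agent.Helper97.Fuchs

open MeasureTheory Matrix UpperHalfPlane Filter Topology
open scoped MatrixGroups ENNReal BigOperators

noncomputable section

variable {ι : Type} [Fintype ι]

namespace H24

/-- homogeneity of the iterates -/
lemma iter_rpow_homog (w : ι → ℝ) (A : ι → SL(2, ℝ)) (K : ℕ) (s : ℝ) (z : ℂ) (hz : z ≠ 0) :
    (avg w A)^[K] (fun z => ‖z‖ ^ (-s)) z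
      = (avg w A)^[K] (fun z => ‖z‖ ^ (-s)) (z / (‖z‖ : ℂ)) * ‖z‖ ^ (-s) := by
  rw [← Ex_iter, ← Ex_iter]
  have hn : 0 < ‖z‖ := norm_pos_iff.2 hz
  have hzz : z = ((‖z‖ : ℝ) : ℂ) * (z / (‖z‖ : ℂ)) := by
    have : (‖z‖ : ℂ) ≠ 0 := by simpa using hz
    field_simp
  rw [mul_comm, ← Ex_mul_left]
  apply Ex_congr
  intro u
  conv_lhs => rw [hzz]
  rw [lin_smul, norm_mul, Complex.norm_real, Real.norm_eq_abs, abs_of_pos hn,
    Real.mul_rpow hn.le (norm_nonneg _)]

lemma norm_div_norm {z : ℂ} (hz : z ≠ 0) : ‖z / (‖z‖ : ℂ)‖ = 1 := by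
  rw [norm_div, Complex.norm_real, norm_norm, div_self (by simpa using hz)]

end H24

open H24

/-- `neg_moment` with the uniform growth as a hypothesis -/
theorem neg_moment_of (w : ι → ℝ) (A : ι → SL(2, ℝ)) (hw : IsWt w) (lm : ℝ)
    (hU : ∀ ε : ℝ, 0 < ε → ∃ K : ℕ, 1 ≤ K ∧ ∀ z : ℂ, ‖z‖ = 1 →
      (lm - ε) * K ≤ (avg w A)^[K] (fun z => Real.log ‖z‖) z) :
    ∀ ε : ℝ, 0 < ε → ∃ K : ℕ, 1 ≤ K ∧ ∃ s₀ : ℝ, 0 < s₀ ∧ ∀ s : ℝ, 0 < s → s ≤ s₀ →
      ∀ z : ℂ, z ≠ 0 → (avg w A)^[K] (fun z => ‖z‖ ^ (-s)) z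
        ≤ Real.exp (-(s * (lm - ε) * K)) * ‖z‖ ^ (-s) := by
  intro ε hε
  obtain ⟨K, hK, hgrow⟩ := hU (ε / 2) (by positivity)
  set b : ℝ := 1 + ∑ u : Fin K → ι, Real.log (nrm (word A u)) with hb
  have hlog0 : ∀ u : Fin K → ι, 0 ≤ Real.log (nrm (word A u)) := fun u =>
    Real.log_nonneg (one_le_nrm _)
  have hb1 : 1 ≤ b := by
    have := Finset.sum_nonneg (s := Finset.univ) (fun u _ => hlog0 u)
    rw [hb]; linarith
  have hub : ∀ u : Fin K → ι, Real.log (nrm (word A u)) ≤ b := by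
    intro u
    have := Finset.single_le_sum (f := fun u : Fin K → ι => Real.log (nrm (word A u)))
      (fun u _ => hlog0 u) (Finset.mem_univ u)
    rw [hb]; linarith
  have hK0 : (0 : ℝ) < K := by exact_mod_cast hK
  refine ⟨K, hK, min (1 / b) (ε / 2 * K / b ^ 2), by positivity, ?_⟩
  intro s hs hs0 z hz
  have hs1 : s * b ≤ 1 := by
    have := hs0.trans (min_le_left _ _)
    rwa [le_div_iff₀ (by linarith)] at this
  have hs2 : s * b ^ 2 ≤ ε / 2 * K := by
    have := hs0.trans (min_le_right _ _)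
    rwa [le_div_iff₀ (by positivity)] at this
  rw [iter_rpow_homog w A K s z hz]
  refine mul_le_mul_of_nonneg_right ?_ (by positivity)
  set y : ℂ := z / (‖z‖ : ℂ) with hy
  have hy1 : ‖y‖ = 1 := norm_div_norm hz
  have hy0 : y ≠ 0 := by intro h; rw [h] at hy1; simp at hy1
  have hg := hgrow y hy1
  rw [← Ex_iter] at hg ⊢
  -- pointwise estimate
  have hpt : ∀ u : Fin K → ι, ‖lin (word A u) y‖ ^ (-s)
      ≤ 1 + (-s) * Real.log ‖lin (word A u) y‖ + s ^ 2 * b ^ 2 := by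
    intro u
    have hpos : 0 < ‖lin (word A u) y‖ := norm_pos_iff.2 (lin_ne_zero hy0)
    have habs : |Real.log ‖lin (word A u) y‖| ≤ b := by
      refine le_trans ?_ (hub u)
      rw [abs_le]
      constructor
      · have h1 := norm_le_lin (word A u) y
        rw [hy1] at h1
        have h2 : (nrm (word A u))⁻¹ ≤ ‖lin (word A u) y‖ := by
          rw [inv_le_iff_one_le_mul₀' (nrm_pos _)]; exact h1
        have h3 := Real.log_le_log (inv_pos.2 (nrm_pos _)) h2
        rwa [Real.log_inv] at h3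
      · have h1 := norm_lin_le (word A u) y
        rw [hy1, mul_one] at h1
        exact Real.log_le_log hpos h1
    rw [Real.rpow_def_of_pos hpos]
    set x := Real.log ‖lin (word A u) y‖ with hx
    have hx1 : |x * -s| ≤ 1 := by
      rw [abs_mul, abs_neg, abs_of_pos hs]
      calc |x| * s ≤ b * s := mul_le_mul_of_nonneg_right habs hs.le
        _ ≤ 1 := by linarith
    have h4 := Real.abs_exp_sub_one_sub_id_le hx1
    have h5 := (abs_le.1 h4).2
    have h6 : (x * -s) ^ 2 ≤ s ^ 2 * b ^ 2 := by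
      have : x ^ 2 ≤ b ^ 2 := sq_le_sq' (by linarith [(abs_le.1 habs).1]) (abs_le.1 habs).2
      calc (x * -s) ^ 2 = s ^ 2 * x ^ 2 := by ring
        _ ≤ _ := mul_le_mul_of_nonneg_left this (by positivity)
    linarith
  have h1 := Ex_mono hw.nonneg hpt
  have h2 : Ex w K (fun u => 1 + (-s) * Real.log ‖lin (word A u) y‖ + s ^ 2 * b ^ 2)
      = 1 + (-s) * Ex w K (fun u => Real.log ‖lin (word A u) y‖) + s ^ 2 * b ^ 2 := by
    rw [Ex_add, Ex_add, Ex_const hw.sum, Ex_const hw.sum, Ex_mul_left]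
  rw [h2] at h1
  refine h1.trans ?_
  have h3 := Real.add_one_le_exp
    (-s * Ex w K (fun u => Real.log ‖lin (word A u) y‖) + s ^ 2 * b ^ 2)
  refine le_trans (by linarith) (h3.trans (Real.exp_le_exp.2 ?_))
  have h4 : s * ((lm - ε / 2) * K) ≤ s * Ex w K (fun u => Real.log ‖lin (word A u) y‖) :=
    mul_le_mul_of_nonneg_left hg hs.le
  have h5 : s * (s * b ^ 2) ≤ s * (ε / 2 * K) := mul_le_mul_of_nonneg_left hs2 hs.le
  nlinarith

omit [Fintype ι] in
lemma H24.continuous_word {n : ℕ} (u : Fin n → ι) :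
    Continuous fun A : ι → SL(2, ℝ) => word A u := by
  unfold word
  induction n with
  | zero => simpa using continuous_const
  | succ n ih =>
    simp only [List.ofFn_succ, List.prod_cons]
    exact (continuous_apply (u 0)).mul (ih (fun k => u k.succ))

theorem neg_moment_perturb (w : ι → ℝ) (A : ι → SL(2, ℝ)) (wn : ℕ → ι → ℝ) (An : ℕ → ι → SL(2, ℝ))
    (hw : ∀ i, Tendsto (fun n => wn n i) atTop (𝓝 (w i)))
    (hA : ∀ i, Tendsto (fun n => An n i) atTop (𝓝 (A i)))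
    (K : ℕ) (s q q' : ℝ) (hs : 0 < s) (hq : q < q')
    (h : ∀ z : ℂ, z ≠ 0 → (avg w A)^[K] (fun z => ‖z‖ ^ (-s)) z ≤ q * ‖z‖ ^ (-s)) :
    ∀ᶠ n in atTop, ∀ z : ℂ, z ≠ 0 →
      (avg (wn n) (An n))^[K] (fun z => ‖z‖ ^ (-s)) z ≤ q' * ‖z‖ ^ (-s) := by
  have _ := hs
  let Φ : ((ι → ℝ) × (ι → SL(2, ℝ))) → ℂ → ℝ := fun p z =>
    (avg p.1 p.2)^[K] (fun z => ‖z‖ ^ (-s)) z
  have hΦ : ∀ p : (ι → ℝ) × (ι → SL(2, ℝ)), ∀ z : ℂ, z ≠ 0 →
      ContinuousAt (fun r : ((ι → ℝ) × (ι → SL(2, ℝ))) × ℂ => Φ r.1 r.2) (p, z) := by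
    intro p z hz
    have e : (fun r : ((ι → ℝ) × (ι → SL(2, ℝ))) × ℂ => Φ r.1 r.2)
        = fun r => ∑ u : Fin K → ι, wt r.1.1 u * ‖lin (word r.1.2 u) r.2‖ ^ (-s) := by
      funext r
      simp only [Φ]
      rw [← Ex_iter]
      rfl
    rw [e]
    refine tendsto_finsetSum _ fun u _ => ?_
    refine ContinuousAt.mul ?_ ?_
    · apply Continuous.continuousAt
      unfold wt
      refine continuous_finsetProd _ fun k _ => ?_
      exact (continuous_apply (u k)).comp (continuous_fst.comp continuous_fst)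
    · have h1 : Continuous fun r : ((ι → ℝ) × (ι → SL(2, ℝ))) × ℂ => ‖lin (word r.1.2 u) r.2‖ := by
        refine (continuous_lin.comp (Continuous.prodMk ?_ continuous_snd)).norm
        exact (continuous_word u).comp (continuous_snd.comp continuous_fst)
      refine h1.continuousAt.rpow continuousAt_const ?_
      left
      simpa using lin_ne_zero hz
  have hev : ∀ᶠ p in 𝓝 (w, A), ∀ z ∈ Metric.sphere (0 : ℂ) 1, Φ p z < q' := by
    refine (isCompact_sphere (0 : ℂ) 1).eventually_forall_of_forall_eventually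
      (P := fun p z => Φ p z < q') ?_
    intro z hz
    have hz1 : ‖z‖ = 1 := by simpa using hz
    have hz0 : z ≠ 0 := by intro h0; rw [h0] at hz1; simp at hz1
    refine (hΦ (w, A) z hz0).eventually_lt (f := fun r : ((ι → ℝ) × (ι → SL(2, ℝ))) × ℂ => Φ r.1 r.2)
      (g := fun _ => q') continuousAt_const ?_
    have := h z hz0
    rw [hz1, Real.one_rpow, mul_one] at this
    exact lt_of_le_of_lt this hq
  have hten : Tendsto (fun n => (wn n, An n)) atTop (𝓝 (w, A)) :=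
    (tendsto_pi_nhds.2 hw).prodMk_nhds (tendsto_pi_nhds.2 hA)
  filter_upwards [hten.eventually hev] with n hn z hz
  rw [iter_rpow_homog _ _ K s z hz]
  refine mul_le_mul_of_nonneg_right ?_ (by positivity)
  exact (hn _ (by simpa using norm_div_norm hz)).le

end

end Pool.Agent.Helper97.Fuchs
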