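import Pool.Agent.Helper24.Fuchs.C1

/-!
# `L_n ≤ lam n + C`
-/

namespace Pool.Agent.Helper97.Fuchs

open MeasureTheory Matrix UpperHalfPlane Filter Topology
open scoped MatrixGroups ENNReal BigOperators

noncomputable section

variable {ι : Type} [Fintype ι]

namespace H24

/-! ### lower bounds for the growth of vectors are at most `lam` -/

lemma L_add_le (w : ι → ℝ) (A : ι → SL(2, ℝ)) (hw : IsWt w) (m n : ℕ) :
    L w A (m + n) ≤ L w A m + L w A n := by
  unfold L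
  rw [Ex_append]
  have h1 : ∀ u : Fin m → ι, Ex w n (fun v => Real.log (nrm (word A (Fin.append u v))))
      ≤ Real.log (nrm (word A u)) + Ex w n (fun v => Real.log (nrm (word A v))) := by
    intro u
    have h2 : ∀ v : Fin n → ι, Real.log (nrm (word A (Fin.append u v)))
        ≤ Real.log (nrm (word A u)) + Real.log (nrm (word A v)) := by
      intro v
      rw [word_append, ← Real.log_mul (nrm_pos _).ne' (nrm_pos _).ne']
      exact Real.log_le_log (nrm_pos _) (nrm_mul_le _ _)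
    refine (Ex_mono hw.nonneg h2).trans (le_of_eq ?_)
    rw [Ex_add, Ex_const hw.sum]
  refine (Ex_mono hw.nonneg h1).trans (le_of_eq ?_)
  rw [Ex_add, Ex_const hw.sum]

lemma L_zero (w : ι → ℝ) (A : ι → SL(2, ℝ)) : 0 ≤ L w A 0 := by
  unfold L
  rw [Ex_zero]
  exact Real.log_nonneg (one_le_nrm _)

lemma L_mul_le (w : ι → ℝ) (A : ι → SL(2, ℝ)) (hw : IsWt w) (m n : ℕ) :
    L w A (m * (n + 1)) ≤ (n + 1) * L w A m := by
  induction n with
  | zero => simp
  | succ n ih =>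
    have e : m * (n + 1 + 1) = m * (n + 1) + m := by ring
    rw [e]
    refine (L_add_le w A hw _ _).trans ?_
    push_cast
    linarith

/-- growth along words: one more block -/
lemma growth_add (w : ι → ℝ) (A : ι → SL(2, ℝ)) (hw : IsWt w) {m n : ℕ} {a b : ℝ}
    (ha : ∀ z : ℂ, ‖z‖ = 1 → a ≤ Ex w m (fun u => Real.log ‖lin (word A u) z‖))
    (hb : ∀ z : ℂ, ‖z‖ = 1 → b ≤ Ex w n (fun u => Real.log ‖lin (word A u) z‖))
    (z : ℂ) (hz : ‖z‖ = 1) :
    a + b ≤ Ex w (m + n) (fun u => Real.log ‖lin (word A u) z‖) := by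
  rw [Ex_append]
  have hswap : Ex w m (fun u => Ex w n (fun v => Real.log ‖lin (word A (Fin.append u v)) z‖))
      = Ex w n (fun v => Ex w m (fun u => Real.log ‖lin (word A (Fin.append u v)) z‖)) := by
    unfold Ex
    simp only [Finset.mul_sum]
    rw [Finset.sum_comm]
    refine Finset.sum_congr rfl fun v _ => Finset.sum_congr rfl fun u _ => by ring
  rw [hswap]
  have hz0 : z ≠ 0 := by intro h; rw [h] at hz; simp at hz
  have h1 : ∀ v : Fin n → ι, a + Real.log ‖lin (word A v) z‖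
      ≤ Ex w m (fun u => Real.log ‖lin (word A (Fin.append u v)) z‖) := by
    intro v
    set y := lin (word A v) z with hy
    have hy0 : y ≠ 0 := lin_ne_zero hz0
    have hyn : 0 < ‖y‖ := norm_pos_iff.2 hy0
    have h2 := ha (y / (‖y‖ : ℂ)) (norm_div_norm hy0)
    have h3 : ∀ u : Fin m → ι, Real.log ‖lin (word A (Fin.append u v)) z‖
        = Real.log ‖lin (word A u) (y / (‖y‖ : ℂ))‖ + Real.log ‖y‖ := by
      intro u
      rw [word_append, lin_mul, ← hy]
      have e : y = ((‖y‖ : ℝ) : ℂ) * (y / (‖y‖ : ℂ)) := by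
        have : (‖y‖ : ℂ) ≠ 0 := by simpa using hy0
        field_simp
      conv_lhs => rw [e]
      have h4 : 0 < ‖lin (word A u) (y / (‖y‖ : ℂ))‖ := by
        apply norm_pos_iff.2
        apply lin_ne_zero
        intro h0
        have := norm_div_norm hy0
        rw [h0] at this; simp at this
      rw [lin_smul, norm_mul, Complex.norm_real, Real.norm_eq_abs, abs_of_pos hyn,
        Real.log_mul hyn.ne' h4.ne', add_comm]
    rw [Ex_congr w h3, Ex_add, Ex_const hw.sum]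
    linarith
  have h5 := Ex_mono hw.nonneg h1
  rw [Ex_add, Ex_const hw.sum] at h5
  linarith [hb z hz]

lemma growth_le_lam (w : ι → ℝ) (A : ι → SL(2, ℝ)) (hw : IsWt w) {n : ℕ} {b : ℝ}
    (hb : ∀ z : ℂ, ‖z‖ = 1 → b ≤ Ex w n (fun u => Real.log ‖lin (word A u) z‖)) :
    b ≤ lam w A * n := by
  rcases Nat.eq_zero_or_pos n with h0 | hn
  · subst h0
    have := hb 1 (by simp)
    rw [Ex_zero] at this
    simpa using this
  have hk : ∀ k : ℕ, ∀ z : ℂ, ‖z‖ = 1 → ((k : ℝ) + 1) * b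
      ≤ Ex w (n * (k + 1)) (fun u => Real.log ‖lin (word A u) z‖) := by
    intro k
    induction k with
    | zero =>
      intro z hz
      have := hb z hz
      simp only [Nat.cast_zero, zero_add, one_mul]
      have e : n * (0 + 1) = n := by ring
      rw [e]
      exact this
    | succ k ih =>
      intro z hz
      have e : n * (k + 1 + 1) = n * (k + 1) + n := by ring
      rw [e]
      have := growth_add w A hw ih hb z hz
      push_cast
      linarith
  have hn0 : (0 : ℝ) < n := by exact_mod_cast hn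
  have h1 : ∀ m : ℕ, b / n ≤ L w A (m + 1) / (m + 1) := by
    intro m
    have h2 := hk m 1 (by simp)
    have h3 : Ex w (n * (m + 1)) (fun u => Real.log ‖lin (word A u) 1‖) ≤ L w A (n * (m + 1)) := by
      refine Ex_mono hw.nonneg fun u => ?_
      refine Real.log_le_log (norm_pos_iff.2 (lin_ne_zero one_ne_zero)) ?_
      have := norm_lin_le (word A u) 1
      simpa using this
    obtain ⟨n', rfl⟩ : ∃ n', n = n' + 1 := ⟨n - 1, by omega⟩
    have h4 := L_mul_le w A hw (m + 1) n'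
    have e : (m + 1) * (n' + 1) = (n' + 1) * (m + 1) := by ring
    rw [e] at h4
    rw [div_le_div_iff₀ hn0 (by positivity)]
    push_cast at *
    linarith
  have h2 : b / n ≤ lam w A := by
    unfold lam
    refine le_ciInf fun m => ?_
    exact h1 m
  rwa [div_le_iff₀ hn0] at h2

/-! ### the slope argument -/

/-- reversed words act with the newest letter on the left -/
def ract (A : ι → SL(2, ℝ)) : (n : ℕ) → (Fin n → ι) → SL(2, ℝ)
  | 0, _ => 1
  | n + 1, u => ract A n (fun k => u k.succ) * A (u 0)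

/-- `∑_{k ≤ n} ‖g_k x‖^{-s}` -/
def Tsum (A : ι → SL(2, ℝ)) (s : ℝ) : (n : ℕ) → (Fin n → ι) → ℂ → ℝ
  | 0, _, x => ‖x‖ ^ (-s)
  | n + 1, u, x => ‖x‖ ^ (-s) + Tsum A s n (fun k => u k.succ) (lin (A (u 0)) x)

omit [Fintype ι] in
lemma word_snoc (A : ι → SL(2, ℝ)) {n : ℕ} (u : Fin (n + 1) → ι) :
    word A u = word A (fun k : Fin n => u k.castSucc) * A (u (Fin.last n)) := by
  unfold word
  rw [List.ofFn_succ', List.concat_eq_append, List.prod_append]
  simp

omit [Fintype ι] in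
lemma ract_eq (A : ι → SL(2, ℝ)) {n : ℕ} (u : Fin n → ι) :
    ract A n u = word A (fun k => u k.rev) := by
  induction n with
  | zero => simp [ract, word]
  | succ n ih =>
    rw [word_snoc, ract, ih]
    congr 2
    · funext k
      simp [Fin.rev_castSucc]
    · simp

omit [Fintype ι] in
lemma Tsum_nonneg (A : ι → SL(2, ℝ)) (s : ℝ) {n : ℕ} (u : Fin n → ι) (x : ℂ) :
    0 ≤ Tsum A s n u x := by
  induction n generalizing x with
  | zero => simp only [Tsum]; positivity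
  | succ n ih =>
    simp only [Tsum]
    have := ih (fun k => u k.succ) (lin (A (u 0)) x)
    positivity

/-- the inner product of `ℂ = ℝ²` -/
def dot (z w : ℂ) : ℝ := z.re * w.re + z.im * w.im

lemma abs_dot_le (z w : ℂ) : |dot z w| ≤ ‖z‖ * ‖w‖ := by
  have h : (dot z w) ^ 2 ≤ (‖z‖ * ‖w‖) ^ 2 := by
    rw [mul_pow, ← wedge_sq_add z w]
    unfold dot
    nlinarith [sq_nonneg (wedge z w)]
  exact abs_le_of_sq_le_sq h (by positivity)

/-- decomposition of `w` along `x` and `i x` -/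
lemma decomp {x : ℂ} (hx : x ≠ 0) (w : ℂ) :
    w = ((dot w x / ‖x‖ ^ 2 : ℝ) : ℂ) * x + ((wedge x w / ‖x‖ ^ 2 : ℝ) : ℂ) * (Complex.I * x) := by
  have h0 : x.re * x.re + x.im * x.im ≠ 0 := by
    have : ‖x‖ ^ 2 ≠ 0 := by simpa using hx
    rwa [Complex.sq_norm, Complex.normSq_apply] at this
  rw [Complex.sq_norm, Complex.normSq_apply]
  apply Complex.ext
  · rw [Complex.add_re, Complex.re_ofReal_mul, Complex.re_ofReal_mul, Complex.mul_re,
      Complex.I_re, Complex.I_im]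
    unfold dot wedge
    have h0' : x.re ^ 2 + x.im ^ 2 ≠ 0 := by intro h; apply h0; linarith
    field_simp
    ring
  · rw [Complex.add_im, Complex.im_ofReal_mul, Complex.im_ofReal_mul, Complex.mul_im,
      Complex.I_re, Complex.I_im]
    unfold dot wedge
    have h0' : x.re ^ 2 + x.im ^ 2 ≠ 0 := by intro h; apply h0; linarith
    field_simp
    ring

lemma norm_div_le_slope {x : ℂ} (hx : x ≠ 0) {w : ℂ} (hw : |wedge x w| ≤ 1) :
    ‖w‖ / ‖x‖ ≤ |dot w x| / ‖x‖ ^ 2 + ‖x‖ ^ (-(2 : ℝ)) := by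
  have hn : 0 < ‖x‖ := norm_pos_iff.2 hx
  have h1 : ‖w‖ ≤ |dot w x| / ‖x‖ ^ 2 * ‖x‖ + |wedge x w| / ‖x‖ ^ 2 * ‖x‖ := by
    conv_lhs => rw [decomp hx w]
    refine (norm_add_le _ _).trans ?_
    rw [norm_mul, norm_mul, norm_mul, Complex.norm_real, Complex.norm_real, Complex.norm_I, one_mul,
      Real.norm_eq_abs, Real.norm_eq_abs, abs_div, abs_div, abs_of_pos (by positivity : 0 < ‖x‖ ^ 2)]
  have h2 : ‖x‖ ^ (-(2 : ℝ)) = 1 / ‖x‖ ^ 2 := by
    rw [Real.rpow_neg hn.le, Real.rpow_two, one_div]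
  rw [h2, div_le_iff₀ hn, add_mul]
  refine h1.trans ?_
  gcongr

/-- one step changes the slope by at most `nrm g ^ 2 / ‖x‖ ^ 2` -/
lemma slope_step (g : SL(2, ℝ)) {x : ℂ} (hx : x ≠ 0) {w : ℂ} (hw : |wedge x w| ≤ 1) :
    |dot (lin g w) (lin g x)| / ‖lin g x‖ ^ 2 ≤ |dot w x| / ‖x‖ ^ 2
      + nrm g ^ 2 * ‖x‖ ^ (-(2 : ℝ)) := by
  have hn : 0 < ‖x‖ := norm_pos_iff.2 hx
  have hgx : lin g x ≠ 0 := lin_ne_zero hx
  have hgn : 0 < ‖lin g x‖ := norm_pos_iff.2 hgx
  set t : ℝ := dot w x / ‖x‖ ^ 2 with ht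
  set c : ℝ := wedge x w / ‖x‖ ^ 2 with hc
  have h1 : lin g w = ((t : ℝ) : ℂ) * lin g x + ((c : ℝ) : ℂ) * lin g (Complex.I * x) := by
    conv_lhs => rw [decomp hx w]
    rw [lin_add, lin_smul, lin_smul]
  have hdd : dot (lin g x) (lin g x) = ‖lin g x‖ ^ 2 := by
    rw [Complex.sq_norm, Complex.normSq_apply]; rfl
  have h2 : dot (lin g w) (lin g x) = t * ‖lin g x‖ ^ 2
      + c * dot (lin g (Complex.I * x)) (lin g x) := by
    rw [h1, ← hdd]
    simp [dot]
    ring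
  have h3 : |dot (lin g (Complex.I * x)) (lin g x)| ≤ nrm g ^ 2 * ‖lin g x‖ ^ 2 := by
    refine (abs_dot_le _ _).trans ?_
    have h4 : ‖lin g (Complex.I * x)‖ ≤ nrm g * ‖x‖ := by
      have := norm_lin_le g (Complex.I * x)
      rwa [norm_mul, Complex.norm_I, one_mul] at this
    have h5 : ‖x‖ ≤ nrm g * ‖lin g x‖ := norm_le_lin g x
    calc ‖lin g (Complex.I * x)‖ * ‖lin g x‖ ≤ (nrm g * (nrm g * ‖lin g x‖)) * ‖lin g x‖ := by
          gcongr
          exact h4.trans (mul_le_mul_of_nonneg_left h5 (nrm_nonneg g))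
      _ = nrm g ^ 2 * ‖lin g x‖ ^ 2 := by ring
  have h6 : ‖x‖ ^ (-(2 : ℝ)) = 1 / ‖x‖ ^ 2 := by
    rw [Real.rpow_neg hn.le, Real.rpow_two, one_div]
  have hc1 : |c| ≤ 1 / ‖x‖ ^ 2 := by
    rw [hc, abs_div, abs_of_pos (by positivity : 0 < ‖x‖ ^ 2)]
    gcongr
  have ht1 : |t| = |dot w x| / ‖x‖ ^ 2 := by
    rw [ht, abs_div, abs_of_pos (by positivity : 0 < ‖x‖ ^ 2)]
  rw [h6, ← ht1, div_le_iff₀ (by positivity), h2]
  calc |t * ‖lin g x‖ ^ 2 + c * dot (lin g (Complex.I * x)) (lin g x)|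
      ≤ |t * ‖lin g x‖ ^ 2| + |c * dot (lin g (Complex.I * x)) (lin g x)| := abs_add_le _ _
    _ ≤ |t| * ‖lin g x‖ ^ 2 + 1 / ‖x‖ ^ 2 * (nrm g ^ 2 * ‖lin g x‖ ^ 2) := by
        rw [abs_mul, abs_mul, abs_of_pos (by positivity : 0 < ‖lin g x‖ ^ 2)]
        gcongr
    _ = (|t| + nrm g ^ 2 * (1 / ‖x‖ ^ 2)) * ‖lin g x‖ ^ 2 := by ring

omit [Fintype ι] in
/-- the slope along the walk -/
lemma slope_bound (A : ι → SL(2, ℝ)) {l : ℝ} (hl : 1 ≤ l) (hA : ∀ i, nrm (A i) ≤ l) {n : ℕ}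
    (u : Fin n → ι) {x : ℂ} (hx : x ≠ 0) {w : ℂ} (hw : |wedge x w| ≤ 1) :
    ‖lin (ract A n u) w‖ / ‖lin (ract A n u) x‖ ≤ |dot w x| / ‖x‖ ^ 2
      + l ^ 2 * Tsum A 2 n u x := by
  induction n generalizing x w with
  | zero =>
    simp only [ract, Tsum, lin_one]
    refine (norm_div_le_slope hx hw).trans ?_
    have h0 : 0 ≤ ‖x‖ ^ (-(2 : ℝ)) := by positivity
    have h1 : (1 : ℝ) ≤ l ^ 2 := by nlinarith
    have h2 := mul_le_mul_of_nonneg_right h1 h0
    linarith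
  | succ n ih =>
    simp only [ract, Tsum, lin_mul]
    have h1 := ih (fun k => u k.succ) (x := lin (A (u 0)) x) (w := lin (A (u 0)) w)
      (lin_ne_zero hx) (by rwa [wedge_lin])
    have h2 := slope_step (A (u 0)) hx hw
    have h3 : nrm (A (u 0)) ^ 2 * ‖x‖ ^ (-(2 : ℝ)) ≤ l ^ 2 * ‖x‖ ^ (-(2 : ℝ)) := by
      refine mul_le_mul_of_nonneg_right ?_ (by positivity)
      exact pow_le_pow_left₀ (nrm_nonneg _) (hA _) 2
    rw [mul_add]
    linarith

/-- the norm in the orthonormal basis `x, i x` -/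
lemma nrm_sq_eq (g : SL(2, ℝ)) {x : ℂ} (hx : ‖x‖ = 1) :
    nrm g ^ 2 = ‖lin g x‖ ^ 2 + ‖lin g (Complex.I * x)‖ ^ 2 := by
  have h1 : x.re ^ 2 + x.im ^ 2 = 1 := by
    have h2 : ‖x‖ ^ 2 = 1 := by rw [hx]; norm_num
    rw [Complex.sq_norm, Complex.normSq_apply] at h2
    nlinarith
  rw [nrm_sq, Complex.sq_norm, Complex.sq_norm, Complex.normSq_apply, Complex.normSq_apply]
  simp only [lin_re, lin_im, Complex.mul_re, Complex.mul_im, Complex.I_re, Complex.I_im]
  linear_combination (-(g 0 0 ^ 2 + g 0 1 ^ 2 + g 1 0 ^ 2 + g 1 1 ^ 2)) * h1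

omit [Fintype ι] in
lemma nrm_ract_le (A : ι → SL(2, ℝ)) {l : ℝ} (hl : 1 ≤ l) (hA : ∀ i, nrm (A i) ≤ l) {n : ℕ}
    (u : Fin n → ι) {x : ℂ} (hx : ‖x‖ = 1) :
    nrm (ract A n u) ≤ ‖lin (ract A n u) x‖ * (l ^ 2 * (1 + Tsum A 2 n u x)) := by
  have hx0 : x ≠ 0 := by intro h; rw [h] at hx; simp at hx
  have hgn : 0 < ‖lin (ract A n u) x‖ := norm_pos_iff.2 (lin_ne_zero hx0)
  have h1 : x.re ^ 2 + x.im ^ 2 = 1 := by
    have h2 : ‖x‖ ^ 2 = 1 := by rw [hx]; norm_num
    rw [Complex.sq_norm, Complex.normSq_apply] at h2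
    nlinarith
  have hwd : |wedge x (Complex.I * x)| ≤ 1 := by
    have : wedge x (Complex.I * x) = 1 := by
      simp [wedge]; nlinarith
    rw [this]; simp
  have hdt : dot (Complex.I * x) x = 0 := by simp [dot]; ring
  have h3 := slope_bound A hl hA u hx0 hwd
  rw [hdt, abs_zero, zero_div, zero_add, div_le_iff₀ hgn] at h3
  have h4 : nrm (ract A n u) ≤ ‖lin (ract A n u) x‖ + ‖lin (ract A n u) (Complex.I * x)‖ := by
    apply le_of_sq_le_sq' _ (by positivity)
    rw [nrm_sq_eq _ hx]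
    nlinarith [norm_nonneg (lin (ract A n u) x), norm_nonneg (lin (ract A n u) (Complex.I * x)),
      mul_nonneg (norm_nonneg (lin (ract A n u) x)) (norm_nonneg (lin (ract A n u) (Complex.I * x)))]
  have hT := Tsum_nonneg A 2 u x
  have h5 : ‖lin (ract A n u) x‖ ≤ ‖lin (ract A n u) x‖ * l ^ 2 := by
    have : (1 : ℝ) ≤ l ^ 2 := by nlinarith
    nlinarith
  calc nrm (ract A n u) ≤ ‖lin (ract A n u) x‖ * l ^ 2
        + l ^ 2 * Tsum A 2 n u x * ‖lin (ract A n u) x‖ := by linarith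
    _ = _ := by ring

omit [Fintype ι] in
lemma rpow_Tsum_le (A : ι → SL(2, ℝ)) {s : ℝ} (hs : 0 < s) (hs2 : s ≤ 2) {n : ℕ} (u : Fin n → ι)
    {x : ℂ} (hx : x ≠ 0) {c : ℝ} (hc : 0 ≤ c) :
    (c + Tsum A 2 n u x) ^ (s / 2) ≤ c ^ (s / 2) + Tsum A s n u x := by
  have hpow : ∀ y : ℂ, y ≠ 0 → (‖y‖ ^ (-(2 : ℝ))) ^ (s / 2) = ‖y‖ ^ (-s) := by
    intro y hy
    rw [← Real.rpow_mul (norm_nonneg _)]
    congr 1; ring
  induction n generalizing x c with
  | zero =>
    simp only [Tsum]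
    refine (Real.rpow_add_le_add_rpow hc (by positivity) (by positivity) (by linarith)).trans ?_
    rw [hpow x hx]
  | succ n ih =>
    simp only [Tsum]
    have h1 := ih (fun k => u k.succ) (x := lin (A (u 0)) x) (lin_ne_zero hx)
      (c := c + ‖x‖ ^ (-(2 : ℝ))) (by positivity)
    have h2 : (c + ‖x‖ ^ (-(2 : ℝ))) ^ (s / 2) ≤ c ^ (s / 2) + ‖x‖ ^ (-s) := by
      refine (Real.rpow_add_le_add_rpow hc (by positivity) (by positivity) (by linarith)).trans ?_
      rw [hpow x hx]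
    rw [← add_assoc, ← add_assoc]
    linarith

omit [Fintype ι] in
lemma log_Tsum_le (A : ι → SL(2, ℝ)) {s : ℝ} (hs : 0 < s) (hs2 : s ≤ 2) {n : ℕ} (u : Fin n → ι)
    {x : ℂ} (hx : x ≠ 0) :
    Real.log (1 + Tsum A 2 n u x) ≤ 2 / s * Tsum A s n u x := by
  have hT := Tsum_nonneg A 2 u x
  have hT' := Tsum_nonneg A s u x
  have h1 := rpow_Tsum_le A hs hs2 u hx (c := 1) zero_le_one
  rw [Real.one_rpow] at h1
  have h2 : Real.log ((1 + Tsum A 2 n u x) ^ (s / 2)) ≤ Real.log (1 + Tsum A s n u x) :=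
    Real.log_le_log (by positivity) h1
  rw [Real.log_rpow (by positivity)] at h2
  have h3 : Real.log (1 + Tsum A s n u x) ≤ Tsum A s n u x := by
    have := Real.log_le_sub_one_of_pos (by positivity : 0 < 1 + Tsum A s n u x)
    linarith
  have h4 : s / 2 * Real.log (1 + Tsum A 2 n u x) ≤ Tsum A s n u x := h2.trans h3
  have e : 2 / s * Tsum A s n u x = Tsum A s n u x / (s / 2) := by field_simp
  rw [e, le_div_iff₀ (by positivity)]
  linarith

lemma Ex_Tsum (w : ι → ℝ) (A : ι → SL(2, ℝ)) (hw : IsWt w) (s : ℝ) (n : ℕ) (x : ℂ) :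
    Ex w n (fun u => Tsum A s n u x)
      = ∑ k ∈ Finset.range (n + 1), (avg w A)^[k] (fun z => ‖z‖ ^ (-s)) x := by
  induction n generalizing x with
  | zero => simp [Ex_zero, Tsum]
  | succ n ih =>
    rw [Ex_succ, Finset.sum_range_succ']
    simp only [Tsum, Fin.cons_zero, Fin.cons_succ, Function.iterate_zero, id]
    have h1 : ∀ i, Ex w n (fun u => ‖x‖ ^ (-s) + Tsum A s n (fun k => u k) (lin (A i) x))
        = ‖x‖ ^ (-s) + ∑ k ∈ Finset.range (n + 1), (avg w A)^[k] (fun z => ‖z‖ ^ (-s))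
          (lin (A i) x) := by
      intro i
      rw [Ex_add, Ex_const hw.sum, ← ih]
    simp only [h1, mul_add, Finset.sum_add_distrib, ← Finset.sum_mul, hw.sum, one_mul]
    rw [add_comm]
    congr 1
    simp only [Finset.mul_sum]
    rw [Finset.sum_comm]
    refine Finset.sum_congr rfl fun k _ => ?_
    rw [Function.iterate_succ_apply']
    rfl

lemma iter_pow_le (w : ι → ℝ) (A : ι → SL(2, ℝ)) (hw : IsWt w) {s : ℝ} (hs : 0 < s) {l : ℝ}
    (hl : 1 ≤ l) (hA : ∀ i, nrm (A i) ≤ l) (n : ℕ) :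
    ∀ z : ℂ, z ≠ 0 → (avg w A)^[n] (fun z => ‖z‖ ^ (-s)) z ≤ (l ^ s) ^ n * ‖z‖ ^ (-s) := by
  induction n with
  | zero => intro z _; simp
  | succ n ih =>
    intro z hz
    rw [Function.iterate_succ_apply']
    refine (avg_mono hw.nonneg A ih z hz).trans ?_
    rw [avg_smul]
    rw [pow_succ, mul_assoc]
    refine mul_le_mul_of_nonneg_left ?_ (by positivity)
    have h1 : ∀ i, ‖lin (A i) z‖ ^ (-s) ≤ l ^ s * ‖z‖ ^ (-s) := by
      intro i
      have h2 := norm_le_lin (A i) z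
      have hzn : 0 < ‖z‖ := norm_pos_iff.2 hz
      have hgn : 0 < ‖lin (A i) z‖ := norm_pos_iff.2 (lin_ne_zero hz)
      have h3 : ‖z‖ ≤ l * ‖lin (A i) z‖ := h2.trans (mul_le_mul_of_nonneg_right (hA i) hgn.le)
      have h4 : (l * ‖lin (A i) z‖) ^ (-s) ≤ ‖z‖ ^ (-s) :=
        Real.rpow_le_rpow_of_nonpos hzn h3 (by linarith)
      rw [Real.mul_rpow (by linarith) hgn.le] at h4
      have h5 : l ^ s * l ^ (-s) = 1 := by
        rw [← Real.rpow_add (by linarith)]; simp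
      have hls : 0 < l ^ s := Real.rpow_pos_of_pos (by linarith) s
      calc ‖lin (A i) z‖ ^ (-s) = l ^ s * (l ^ (-s) * ‖lin (A i) z‖ ^ (-s)) := by
            rw [← mul_assoc, h5, one_mul]
        _ ≤ l ^ s * ‖z‖ ^ (-s) := mul_le_mul_of_nonneg_left h4 hls.le
    unfold avg
    refine (Finset.sum_le_sum fun i _ => mul_le_mul_of_nonneg_left (h1 i) (hw.nonneg i)).trans ?_
    rw [← Finset.sum_mul, hw.sum, one_mul]

/-- iterating a contraction of the negative moment -/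
lemma iter_geom (w : ι → ℝ) (A : ι → SL(2, ℝ)) (hw : IsWt w) {K : ℕ} {s q : ℝ}
    (hq0 : 0 < q)
    (hneg : ∀ z : ℂ, z ≠ 0 → (avg w A)^[K] (fun z => ‖z‖ ^ (-s)) z ≤ q * ‖z‖ ^ (-s)) (j i : ℕ) :
    ∀ z : ℂ, z ≠ 0 → (avg w A)^[i + K * j] (fun z => ‖z‖ ^ (-s)) z
      ≤ q ^ j * (avg w A)^[i] (fun z => ‖z‖ ^ (-s)) z := by
  induction j with
  | zero => intro z _; simp
  | succ j ih =>
    intro z hz
    have e : i + K * (j + 1) = (i + K * j) + K := by ring
    rw [e, Function.iterate_add_apply]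
    have h1 := avg_iter_mono hw.nonneg A hneg (i + K * j) z hz
    refine h1.trans ?_
    rw [avg_iter_smul]
    have := mul_le_mul_of_nonneg_left (ih z hz) hq0.le
    refine this.trans (le_of_eq ?_)
    rw [pow_succ]; ring

lemma exists_sum_bound (w : ι → ℝ) (A : ι → SL(2, ℝ)) (hw : IsWt w) {K : ℕ} (hK : 1 ≤ K)
    {s q : ℝ} (hs : 0 < s) (hq0 : 0 < q) (hq1 : q < 1)
    (hneg : ∀ z : ℂ, z ≠ 0 → (avg w A)^[K] (fun z => ‖z‖ ^ (-s)) z ≤ q * ‖z‖ ^ (-s)) :
    ∃ C : ℝ, ∀ n : ℕ, ∀ z : ℂ, ‖z‖ = 1 →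
      ∑ k ∈ Finset.range (n + 1), (avg w A)^[k] (fun z => ‖z‖ ^ (-s)) z ≤ C := by
  set l : ℝ := 1 + ∑ i, nrm (A i) with hl
  have hl1 : 1 ≤ l := by
    have := Finset.sum_nonneg (s := Finset.univ) (fun i _ => nrm_nonneg (A i))
    rw [hl]; linarith
  have hA : ∀ i, nrm (A i) ≤ l := by
    intro i
    have := Finset.single_le_sum (f := fun i => nrm (A i)) (fun i _ => nrm_nonneg (A i))
      (Finset.mem_univ i)
    rw [hl]; linarith
  have hls : 1 ≤ l ^ s := Real.one_le_rpow hl1 hs.le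
  refine ⟨K * ((l ^ s) ^ K) * (1 - q)⁻¹, ?_⟩
  intro n z hz
  have hz0 : z ≠ 0 := by intro h; rw [h] at hz; simp at hz
  have hterm : ∀ k : ℕ, (avg w A)^[k] (fun z => ‖z‖ ^ (-s)) z ≤ (l ^ s) ^ K * q ^ (k / K) := by
    intro k
    have h1 := iter_geom w A hw hq0 hneg (k / K) (k % K) z hz0
    have e : k % K + K * (k / K) = k := Nat.mod_add_div k K
    rw [e] at h1
    refine h1.trans ?_
    rw [mul_comm]
    refine mul_le_mul_of_nonneg_right ?_ (by positivity)
    have h2 := iter_pow_le w A hw hs hl1 hA (k % K) z hz0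
    rw [hz, Real.one_rpow, mul_one] at h2
    refine h2.trans ?_
    exact pow_le_pow_right₀ hls (Nat.mod_lt k (by omega)).le
  have hnn : ∀ k : ℕ, 0 ≤ (l ^ s) ^ K * q ^ (k / K) := fun k => by positivity
  -- compare with the sum over `range (K * (n + 1))`
  have h3 : ∑ k ∈ Finset.range (n + 1), (avg w A)^[k] (fun z => ‖z‖ ^ (-s)) z
      ≤ ∑ k ∈ Finset.range (K * (n + 1)), (l ^ s) ^ K * q ^ (k / K) := by
    refine (Finset.sum_le_sum fun k _ => hterm k).trans ?_
    refine Finset.sum_le_sum_of_subset_of_nonneg ?_ (fun k _ _ => hnn k)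
    intro k hk
    rw [Finset.mem_range] at hk ⊢
    nlinarith
  have h4 : ∀ m : ℕ, ∑ k ∈ Finset.range (K * m), q ^ (k / K) = K * ∑ j ∈ Finset.range m, q ^ j := by
    intro m
    induction m with
    | zero => simp
    | succ m ih =>
      rw [Nat.mul_succ, Finset.sum_range_add, ih, Finset.sum_range_succ, mul_add]
      congr 1
      have : ∀ x ∈ Finset.range K, q ^ ((K * m + x) / K) = q ^ m := by
        intro x hx
        rw [Finset.mem_range] at hx
        rw [Nat.mul_add_div (by omega), Nat.div_eq_of_lt hx, add_zero]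
      rw [Finset.sum_congr rfl this]
      simp
  rw [← Finset.mul_sum, h4] at h3
  refine h3.trans ?_
  have h5 : ∑ j ∈ Finset.range (n + 1), q ^ j ≤ (1 - q)⁻¹ := by
    rw [← tsum_geometric_of_lt_one hq0.le hq1]
    exact (summable_geometric_of_lt_one hq0.le hq1).sum_le_tsum _ (fun _ _ => by positivity)
  calc (l ^ s) ^ K * (K * ∑ j ∈ Finset.range (n + 1), q ^ j)
      ≤ (l ^ s) ^ K * (K * (1 - q)⁻¹) := by gcongr
    _ = _ := by ring

end H24

open H24

/-- `L_le` with the uniform growth as a hypothesis -/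
theorem L_le_of (w : ι → ℝ) (A : ι → SL(2, ℝ)) (hw : IsWt w)
    (hU : 0 < lam w A ∧ ∀ ε : ℝ, 0 < ε → ∃ K : ℕ, 1 ≤ K ∧ ∀ z : ℂ, ‖z‖ = 1 →
      (lam w A - ε) * K ≤ (avg w A)^[K] (fun z => Real.log ‖z‖) z) :
    ∃ C : ℝ, ∀ n : ℕ, L w A n ≤ lam w A * n + C := by
  obtain ⟨hlam, hU⟩ := hU
  obtain ⟨K, hK, s₀, hs₀, hneg⟩ := neg_moment_of w A hw (lam w A) hU (lam w A / 2) (by positivity)
  set s : ℝ := min s₀ 2 with hs
  have hs0 : 0 < s := lt_min hs₀ two_pos
  have hs2 : s ≤ 2 := min_le_right _ _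
  have hneg' := hneg s hs0 (min_le_left _ _)
  have hK0 : (0 : ℝ) < K := by exact_mod_cast hK
  set q : ℝ := Real.exp (-(s * (lam w A - lam w A / 2) * K)) with hq
  have hq0 : 0 < q := Real.exp_pos _
  have hq1 : q < 1 := by
    rw [hq, Real.exp_lt_one_iff]
    have : 0 < s * (lam w A - lam w A / 2) * K := by
      have : 0 < lam w A - lam w A / 2 := by linarith
      positivity
    linarith
  obtain ⟨C, hC⟩ := exists_sum_bound w A hw hK hs0 hq0 hq1 hneg'
  set l : ℝ := 1 + ∑ i, nrm (A i) with hl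
  have hl1 : 1 ≤ l := by
    have := Finset.sum_nonneg (s := Finset.univ) (fun i _ => nrm_nonneg (A i))
    rw [hl]; linarith
  have hA : ∀ i, nrm (A i) ≤ l := by
    intro i
    have := Finset.single_le_sum (f := fun i => nrm (A i)) (fun i _ => nrm_nonneg (A i))
      (Finset.mem_univ i)
    rw [hl]; linarith
  refine ⟨2 * Real.log l + 2 / s * C, ?_⟩
  intro n
  have hgrow : ∀ z : ℂ, ‖z‖ = 1 → L w A n - (2 * Real.log l + 2 / s * C)
      ≤ Ex w n (fun u => Real.log ‖lin (word A u) z‖) := by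
    intro z hz
    have hz0 : z ≠ 0 := by intro h; rw [h] at hz; simp at hz
    have hrev1 : L w A n = Ex w n (fun u => Real.log (nrm (ract A n u))) := by
      unfold L
      rw [← Ex_rev]
      exact Ex_congr w fun u => by rw [ract_eq]
    have hrev2 : Ex w n (fun u => Real.log ‖lin (word A u) z‖)
        = Ex w n (fun u => Real.log ‖lin (ract A n u) z‖) := by
      rw [← Ex_rev]
      exact Ex_congr w fun u => by rw [ract_eq]
    rw [hrev1, hrev2]
    have hpt : ∀ u : Fin n → ι, Real.log (nrm (ract A n u))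
        ≤ Real.log ‖lin (ract A n u) z‖ + (2 * Real.log l + 2 / s * Tsum A s n u z) := by
      intro u
      have hgn : 0 < ‖lin (ract A n u) z‖ := norm_pos_iff.2 (lin_ne_zero hz0)
      have hT := Tsum_nonneg A 2 u z
      have h1 := Real.log_le_log (nrm_pos _) (nrm_ract_le A hl1 hA u hz)
      rw [Real.log_mul hgn.ne' (by positivity), Real.log_mul (by positivity) (by positivity),
        Real.log_pow] at h1
      have h2 := log_Tsum_le A hs0 hs2 u hz0
      push_cast at h1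
      linarith
    have h1 := Ex_mono hw.nonneg hpt
    rw [Ex_add, Ex_add, Ex_const hw.sum, Ex_mul_left, Ex_Tsum w A hw] at h1
    have h2 := hC n z hz
    have h3 : 2 / s * ∑ k ∈ Finset.range (n + 1), (avg w A)^[k] (fun z => ‖z‖ ^ (-s)) z
        ≤ 2 / s * C := mul_le_mul_of_nonneg_left h2 (by positivity)
    linarith
  have := growth_le_lam w A hw hgrow
  linarith

end

end Pool.Agent.Helper97.Fuchs
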