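import Pool.Agent.Helper97.Fuchs.Defs2

/-!
# Counting elements of discrete groups of matrices in norm balls
-/

namespace Pool.Agent.Helper97.Fuchs

open MeasureTheory Matrix UpperHalfPlane Filter Topology
open scoped MatrixGroups ENNReal BigOperators

noncomputable section

lemma abs_entry_le_nrm (g : SL(2, ℝ)) (i j : Fin 2) : |g i j| ≤ nrm g := by
  apply abs_le_of_sq_le_sq _ (nrm_nonneg g)
  rw [nrm_sq]
  have h00 := sq_nonneg (g 0 0)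
  have h01 := sq_nonneg (g 0 1)
  have h10 := sq_nonneg (g 1 0)
  have h11 := sq_nonneg (g 1 1)
  fin_cases i <;> fin_cases j <;> simp <;> linarith

/-- two elements of a discrete group of norm at most `R` which are close coincide -/
lemma eq_of_close {ε : ℝ} {Γ : Subgroup SL(2, ℝ)} (hd : Disc ε Γ) {R : ℝ} (hR : 0 < R)
    {g h : SL(2, ℝ)} (hg : g ∈ Γ) (hh : h ∈ Γ) (hgR : nrm g ≤ R)
    (hc : ∀ i j, |h i j - g i j| < ε / (2 * R)) : g = h := by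
  have h1 : g⁻¹ * h ∈ Γ := Γ.mul_mem (Γ.inv_mem hg) hh
  have h2 : ∀ i j, (g⁻¹ * h) i j - (1 : SL(2, ℝ)) i j
      = g⁻¹ i 0 * (h 0 j - g 0 j) + g⁻¹ i 1 * (h 1 j - g 1 j) := by
    intro i j
    have e : (1 : SL(2, ℝ)) i j = (g⁻¹ * g) i j := by rw [inv_mul_cancel]
    rw [e, mul_apply', mul_apply']
    ring
  have h3 : ∀ i j, |g⁻¹ i j| ≤ R := by
    intro i j
    exact (abs_entry_le_nrm g⁻¹ i j).trans (by rwa [nrm_inv])
  have h4 := hd.2 _ h1 (fun i j => by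
    rw [h2 i j]
    have a1 : |g⁻¹ i 0 * (h 0 j - g 0 j)| ≤ R * |h 0 j - g 0 j| := by
      rw [abs_mul]; exact mul_le_mul_of_nonneg_right (h3 i 0) (abs_nonneg _)
    have a2 : |g⁻¹ i 1 * (h 1 j - g 1 j)| ≤ R * |h 1 j - g 1 j| := by
      rw [abs_mul]; exact mul_le_mul_of_nonneg_right (h3 i 1) (abs_nonneg _)
    have b1 : R * |h 0 j - g 0 j| < ε / 2 := by
      have := mul_lt_mul_of_pos_left (hc 0 j) hR
      have e : R * (ε / (2 * R)) = ε / 2 := by field_simp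
      rwa [e] at this
    have b2 : R * |h 1 j - g 1 j| < ε / 2 := by
      have := mul_lt_mul_of_pos_left (hc 1 j) hR
      have e : R * (ε / (2 * R)) = ε / 2 := by field_simp
      rwa [e] at this
    calc |g⁻¹ i 0 * (h 0 j - g 0 j) + g⁻¹ i 1 * (h 1 j - g 1 j)|
        ≤ |g⁻¹ i 0 * (h 0 j - g 0 j)| + |g⁻¹ i 1 * (h 1 j - g 1 j)| := abs_add_le _ _
      _ < ε := by linarith)
  exact (inv_mul_eq_one.1 h4)

/-- boxes of side `ε / (2 R)` -/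
def boxOf (c : ℝ) (g : SL(2, ℝ)) : Fin 2 → Fin 2 → ℤ := fun i j => ⌊g i j * c⌋

theorem count_ball (ε : ℝ) (hε : 0 < ε) :
    ∃ C : ℝ, 0 < C ∧ ∀ Γ : Subgroup SL(2, ℝ), Disc ε Γ → ∀ R : ℝ, 1 ≤ R →
      {g : SL(2, ℝ) | g ∈ Γ ∧ nrm g ≤ R}.Finite ∧
      (({g : SL(2, ℝ) | g ∈ Γ ∧ nrm g ≤ R}.ncard : ℕ) : ℝ) ≤ C * R ^ 8 := by
  refine ⟨(4 / ε + 2) ^ 4, by positivity, ?_⟩
  intro Γ hd R hR
  have hR0 : 0 < R := by linarith
  set c : ℝ := 2 * R / ε with hc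
  have hc0 : 0 < c := by positivity
  have hinj : Set.InjOn (boxOf c) {g : SL(2, ℝ) | g ∈ Γ ∧ nrm g ≤ R} := by
    intro g hg h hh he
    refine eq_of_close hd hR0 hg.1 hh.1 hg.2 ?_
    intro i j
    have e : ⌊g i j * c⌋ = ⌊h i j * c⌋ := congrFun (congrFun he i) j
    have h1 := Int.abs_sub_lt_one_of_floor_eq_floor e
    have h2 : |h i j - g i j| * c < 1 := by
      calc |h i j - g i j| * c = |g i j * c - h i j * c| := by
            rw [← sub_mul, abs_mul, abs_of_pos hc0, abs_sub_comm]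
        _ < 1 := h1
    have h3 : ε / (2 * R) = 1 / c := by rw [hc]; field_simp
    rw [h3, lt_div_iff₀ hc0]
    exact h2
  set T : Finset (Fin 2 → Fin 2 → ℤ) :=
    Fintype.piFinset fun _ => Fintype.piFinset fun _ => Finset.Icc ⌊-(R * c)⌋ ⌊R * c⌋ with hT
  have hmaps : Set.MapsTo (boxOf c) {g : SL(2, ℝ) | g ∈ Γ ∧ nrm g ≤ R} (T : Set _) := by
    intro g hg
    simp only [hT, Finset.mem_coe, Fintype.mem_piFinset, Finset.mem_Icc]
    intro i j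
    have h1 : |g i j| ≤ R := (abs_entry_le_nrm g i j).trans hg.2
    have h2 := abs_le.1 h1
    constructor
    · apply Int.floor_mono; nlinarith [h2.1]
    · apply Int.floor_mono; nlinarith [h2.2]
  have hfin : {g : SL(2, ℝ) | g ∈ Γ ∧ nrm g ≤ R}.Finite :=
    Set.Finite.of_injOn hmaps hinj T.finite_toSet
  refine ⟨hfin, ?_⟩
  have hcard : {g : SL(2, ℝ) | g ∈ Γ ∧ nrm g ≤ R}.ncard ≤ T.card := by
    have := Set.ncard_le_ncard_of_injOn (boxOf c) hmaps hinj T.finite_toSet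
    rwa [Set.ncard_coe_finset] at this
  have hTcard : T.card = (Finset.Icc ⌊-(R * c)⌋ ⌊R * c⌋).card ^ 4 := by
    simp only [hT, Fintype.card_piFinset, Finset.prod_const, Finset.card_univ, Fintype.card_fin]
    ring
  have hI : ((Finset.Icc ⌊-(R * c)⌋ ⌊R * c⌋).card : ℝ) ≤ (4 / ε + 2) * R ^ 2 := by
    rw [Int.card_Icc]
    have h1 : (-(R * c)) < (⌊-(R * c)⌋ : ℝ) + 1 := Int.lt_floor_add_one _
    have h2 : (⌊R * c⌋ : ℝ) ≤ R * c := Int.floor_le _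
    have h0 : 0 < R * c := by positivity
    have h3 : (0 : ℤ) ≤ ⌊R * c⌋ + 1 - ⌊-(R * c)⌋ := by
      have : (⌊-(R * c)⌋ : ℤ) ≤ ⌊R * c⌋ := Int.floor_mono (by linarith)
      linarith
    have h4 : ((⌊R * c⌋ + 1 - ⌊-(R * c)⌋).toNat : ℝ) = (⌊R * c⌋ : ℝ) + 1 - ⌊-(R * c)⌋ := by
      have : (((⌊R * c⌋ + 1 - ⌊-(R * c)⌋).toNat : ℤ) : ℝ) = ((⌊R * c⌋ + 1 - ⌊-(R * c)⌋ : ℤ) : ℝ) := by
        rw [Int.toNat_of_nonneg h3]
      push_cast at this
      exact_mod_cast this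
    rw [h4]
    have h5 : R * c = 2 / ε * R ^ 2 := by rw [hc]; ring
    have h6 : (1 : ℝ) ≤ R ^ 2 := by nlinarith
    have h7 : (4 / ε + 2) * R ^ 2 = 2 * (2 / ε * R ^ 2) + 2 * R ^ 2 := by ring
    rw [h7, ← h5]
    linarith
  calc (({g : SL(2, ℝ) | g ∈ Γ ∧ nrm g ≤ R}.ncard : ℕ) : ℝ) ≤ (T.card : ℝ) := by exact_mod_cast hcard
    _ = ((Finset.Icc ⌊-(R * c)⌋ ⌊R * c⌋).card : ℝ) ^ 4 := by rw [hTcard]; push_cast; ring
    _ ≤ ((4 / ε + 2) * R ^ 2) ^ 4 := pow_le_pow_left₀ (by positivity) hI 4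
    _ = (4 / ε + 2) ^ 4 * R ^ 8 := by ring

theorem summable_large {ε : ℝ} {Γ : Subgroup SL(2, ℝ)} (hd : Disc ε Γ) :
    Summable fun g : Γ => nrm (g : SL(2, ℝ)) ^ (-(2 * (5 : ℝ))) := by
  classical
  obtain ⟨C, hC, hcount⟩ := count_ball ε hd.1
  have hcount' := hcount Γ hd
  -- the dyadic scale
  let κ : Γ → ℕ := fun g => Nat.log 2 ⌊nrm (g : SL(2, ℝ))⌋₊
  have hk1 : ∀ g : Γ, (2 : ℝ) ^ κ g ≤ nrm (g : SL(2, ℝ)) := by
    intro g
    have h0 : ⌊nrm (g : SL(2, ℝ))⌋₊ ≠ 0 := by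
      have := (Nat.one_le_floor_iff (nrm (g : SL(2, ℝ)))).2 (one_le_nrm _)
      omega
    have h1 := Nat.pow_log_le_self 2 h0
    have h2 : (⌊nrm (g : SL(2, ℝ))⌋₊ : ℝ) ≤ nrm (g : SL(2, ℝ)) := Nat.floor_le (nrm_nonneg _)
    calc (2 : ℝ) ^ κ g = ((2 ^ κ g : ℕ) : ℝ) := by push_cast; rfl
      _ ≤ (⌊nrm (g : SL(2, ℝ))⌋₊ : ℝ) := by exact_mod_cast h1
      _ ≤ _ := h2
  have hk2 : ∀ g : Γ, nrm (g : SL(2, ℝ)) ≤ (2 : ℝ) ^ (κ g + 1) := by
    intro g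
    have h1 := Nat.lt_pow_succ_log_self (b := 2) (by norm_num) ⌊nrm (g : SL(2, ℝ))⌋₊
    have h2 : nrm (g : SL(2, ℝ)) < (⌊nrm (g : SL(2, ℝ))⌋₊ : ℝ) + 1 := Nat.lt_floor_add_one _
    have h3 : ((⌊nrm (g : SL(2, ℝ))⌋₊ + 1 : ℕ) : ℝ) ≤ ((2 ^ (κ g + 1) : ℕ) : ℝ) := by
      exact_mod_cast h1
    push_cast at h3
    linarith
  have hexp : ∀ x : ℝ, 0 < x → x ^ (-(2 * (5 : ℝ))) = (x ^ 10)⁻¹ := by
    intro x hx
    have e : (-(2 * (5 : ℝ))) = -((10 : ℕ) : ℝ) := by norm_num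
    rw [e, Real.rpow_neg hx.le, Real.rpow_natCast]
  refine summable_of_sum_le (c := ∑' k : ℕ, C * 256 * (1 / 4 : ℝ) ^ k) ?_ ?_
  · intro g
    have := nrm_nonneg (g : SL(2, ℝ))
    positivity
  · intro s
    have hsum : Summable fun k : ℕ => C * 256 * (1 / 4 : ℝ) ^ k :=
      (summable_geometric_of_lt_one (by norm_num) (by norm_num)).mul_left _
    have h1 : ∑ g ∈ s, nrm (g : SL(2, ℝ)) ^ (-(2 * (5 : ℝ)))
        = ∑ k ∈ s.image κ, ∑ g ∈ s with κ g = k, nrm (g : SL(2, ℝ)) ^ (-(2 * (5 : ℝ))) :=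
      (Finset.sum_fiberwise_of_maps_to (fun g hg => Finset.mem_image_of_mem κ hg) _).symm
    rw [h1]
    refine le_trans (Finset.sum_le_sum (g := fun k => C * 256 * (1 / 4 : ℝ) ^ k) ?_)
      (hsum.sum_le_tsum _ (fun k _ => by positivity))
    intro k _
    have h2 : ∀ g ∈ s.filter (fun g => κ g = k),
        nrm (g : SL(2, ℝ)) ^ (-(2 * (5 : ℝ))) ≤ (((2 : ℝ) ^ k) ^ 10)⁻¹ := by
      intro g hg
      have hgk : κ g = k := (Finset.mem_filter.1 hg).2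
      rw [hexp _ (nrm_pos _)]
      apply inv_anti₀ (by positivity)
      apply pow_le_pow_left₀ (by positivity)
      rw [← hgk]; exact hk1 g
    have h3 := Finset.sum_le_card_nsmul _ _ _ h2
    have h4 : ((s.filter (fun g => κ g = k)).card : ℝ) ≤ C * ((2 : ℝ) ^ (k + 1)) ^ 8 := by
      have hone : (1 : ℝ) ≤ 2 ^ (k + 1) := one_le_pow₀ (by norm_num)
      obtain ⟨hf, hc⟩ := hcount' (2 ^ (k + 1)) hone
      refine le_trans ?_ hc
      have : (s.filter (fun g => κ g = k)).card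
          ≤ {g : SL(2, ℝ) | g ∈ Γ ∧ nrm g ≤ 2 ^ (k + 1)}.ncard := by
        rw [← Set.ncard_coe_finset]
        refine Set.ncard_le_ncard_of_injOn (fun g : Γ => (g : SL(2, ℝ))) ?_ ?_ hf
        · intro g hg
          have hgk : κ g = k := (Finset.mem_filter.1 (Finset.mem_coe.1 hg)).2
          refine ⟨g.2, ?_⟩
          rw [← hgk]; exact hk2 g
        · intro a _ b _ hab
          exact Subtype.ext hab
      exact_mod_cast this
    refine le_trans h3 ?_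
    rw [nsmul_eq_mul]
    calc ((s.filter (fun g => κ g = k)).card : ℝ) * (((2 : ℝ) ^ k) ^ 10)⁻¹
        ≤ (C * ((2 : ℝ) ^ (k + 1)) ^ 8) * (((2 : ℝ) ^ k) ^ 10)⁻¹ :=
          mul_le_mul_of_nonneg_right h4 (by positivity)
      _ = C * 256 * (1 / 4 : ℝ) ^ k := by
          have e1 : (1 / 4 : ℝ) ^ k = ((2 : ℝ) ^ k * (2 : ℝ) ^ k)⁻¹ := by
            rw [← mul_pow, ← inv_pow]; norm_num
          rw [e1, pow_succ]
          field_simp
          ring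

end

end Pool.Agent.Helper97.Fuchs
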